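import Pool.Agent.H287R3.RA.Homog

/-!
# Ramsey colourings have no large alternating symmetry
-/

set_option autoImplicit false

namespace Pool.Agent.Results.MP_28724c_co.AlternatingSymmetry

open Equiv

/-- `c` colours the pairs of `V`, and the group `H` acts on `V`, not trivially, and preserves `c` -/
structure Symmetric (H V κ : Type) [Group H] [MulAction H V] (c : V → V → κ) : Prop where
  comm : ∀ x y, c x y = c y x
  inv : ∀ (g : H) (x y : V), c (g • x) (g • y) = c x y
  nontrivial : ∃ (g : H) (x : V), g • x ≠ x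

/-- all pairs of different elements of `M` have the same colour -/
def Homogeneous {V κ : Type} (c : V → V → κ) (M : Finset V) : Prop :=
  ∃ a : κ, ∀ x ∈ M, ∀ y ∈ M, x ≠ y → c x y = a

lemma exists_big {κ V : Type} [Fintype V] (m : ℕ) [MulAction (alternatingGroup (Fin m)) V]
    (c : V → V → κ) (hc : Symmetric (alternatingGroup (Fin m)) V κ c) :
    ∃ M : Finset V, m ≤ M.card + 6 * Nat.log 2 (Fintype.card V) + 4 ∧ Homogeneous c M := by
  classical
  obtain ⟨g₀, u, hu⟩ := hc.nontrivial
  have hκ : Nonempty κ := ⟨c u u⟩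
  by_cases hm : 6 * Nat.log 2 (Fintype.card V) + 5 ≤ m
  swap
  · exact ⟨∅, by rw [Finset.card_empty]; omega, hκ.some, by simp⟩
  set d : Finset V → κ := fun S => if h : ∃ p : V × V, p.1 ≠ p.2 ∧ S = {p.1, p.2} then
    c h.choose.1 h.choose.2 else hκ.some with hd
  have hd1 : ∀ x y : V, x ≠ y → d {x, y} = c x y := by
    intro x y hxy
    have hex : ∃ p : V × V, p.1 ≠ p.2 ∧ ({x, y} : Finset V) = {p.1, p.2} := ⟨(x, y), hxy, rfl⟩
    simp only [hd]
    rw [dif_pos hex]
    obtain ⟨h1, h2⟩ := hex.choose_spec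
    set p := hex.choose with hp
    have hx : x ∈ ({p.1, p.2} : Finset V) := h2 ▸ (by simp)
    have hy : y ∈ ({p.1, p.2} : Finset V) := h2 ▸ (by simp)
    rw [Finset.mem_insert, Finset.mem_singleton] at hx hy
    rcases hx with hx | hx <;> rcases hy with hy | hy
    · exact absurd (hx.trans hy.symm) hxy
    · rw [hx, hy]
    · rw [hx, hy]; exact hc.comm _ _
    · exact absurd (hx.trans hy.symm) hxy
  obtain ⟨M, hM1, hM2⟩ := H287R3.RA.exists_homog (α := Fin m) d 2 le_rfl (by
    intro g S hS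
    rw [Finset.card_eq_two] at hS
    obtain ⟨x, y, hxy, rfl⟩ := hS
    have hgxy : g • x ≠ g • y := fun h => hxy (MulAction.injective g h)
    rw [Finset.image_insert, Finset.image_singleton, hd1 _ _ hgxy, hd1 _ _ hxy]
    exact hc.inv g x y) ⟨u, g₀, hu⟩ (by rw [Fintype.card_fin]; omega)
  rw [Fintype.card_fin] at hM1
  refine ⟨M, by omega, ?_⟩
  by_cases hne : ∃ z ∈ M, ∃ w ∈ M, z ≠ w
  · obtain ⟨z, hz, w, hw, hzw⟩ := hne
    refine ⟨c z w, fun x hx y hy hxy => ?_⟩
    rw [← hd1 x y hxy, ← hd1 z w hzw]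
    apply hM2
    · intro t ht
      rw [Finset.mem_insert, Finset.mem_singleton] at ht
      rcases ht with rfl | rfl <;> assumption
    · intro t ht
      rw [Finset.mem_insert, Finset.mem_singleton] at ht
      rcases ht with rfl | rfl <;> assumption
    · exact Finset.card_pair hxy
    · exact Finset.card_pair hzw
  · push Not at hne
    exact ⟨hκ.some, fun x hx y hy hxy => absurd (hne x hx y hy) hxy⟩

/-- Let `c` be a colouring (with any number of colours) of the pairs of a finite set `V` with `N`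
elements, invariant under an action of the alternating group `Alt(m)` on `V` which is not trivial.
(1) `c` has a homogeneous set of at least `m - 6 log₂ N - 4` elements.
(2) If `c` has no homogeneous set of `k` elements, then `m ≤ k + 3 + 6 log₂ N`; and if moreover
`N ≥ 2 ^ (k / 2)` (the bound of Erdős), then `m ≤ 8 log₂ N + 3`.
(3) If `c` has no homogeneous set of `k` elements and `m ≥ C log₂ N` with `C > 6`, then
`N ≤ 2 ^ ((k + 3) / (C - 6))`. -/
theorem result {κ V : Type} [Fintype V] (m : ℕ) [MulAction (alternatingGroup (Fin m)) V]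
    (c : V → V → κ) (hc : Symmetric (alternatingGroup (Fin m)) V κ c) :
    (∃ M : Finset V, (m : ℝ) - 6 * Real.logb 2 (Fintype.card V) - 4 ≤ M.card ∧
      Homogeneous c M) ∧
    (∀ k : ℕ, (∀ M : Finset V, M.card = k → ¬ Homogeneous c M) →
      (m : ℝ) ≤ k + 3 + 6 * Real.logb 2 (Fintype.card V) ∧
      ((2 : ℝ) ^ ((k : ℝ) / 2) ≤ Fintype.card V →
        (m : ℝ) ≤ 8 * Real.logb 2 (Fintype.card V) + 3) ∧
      ∀ C : ℝ, 6 < C → C * Real.logb 2 (Fintype.card V) ≤ m →
        (Fintype.card V : ℝ) ≤ (2 : ℝ) ^ (((k : ℝ) + 3) / (C - 6))) := by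
  obtain ⟨M, hM, hH⟩ := exists_big m c hc
  obtain ⟨g₀, u, -⟩ := hc.nontrivial
  have hV : 0 < Fintype.card V := Fintype.card_pos_iff.2 ⟨u⟩
  have hVR : (0 : ℝ) < Fintype.card V := by exact_mod_cast hV
  have hlog : (Nat.log 2 (Fintype.card V) : ℝ) ≤ Real.logb 2 (Fintype.card V) := by
    rw [Real.le_logb_iff_rpow_le (by norm_num) hVR, Real.rpow_natCast]
    exact_mod_cast Nat.pow_log_le_self 2 hV.ne'
  have hMR : (m : ℝ) ≤ M.card + 6 * Nat.log 2 (Fintype.card V) + 4 := by exact_mod_cast hM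
  refine ⟨⟨M, by linarith, hH⟩, ?_⟩
  intro k hk
  have hMk : M.card + 1 ≤ k := by
    by_contra hlt
    push Not at hlt
    obtain ⟨M', hM', hc'⟩ := Finset.exists_subset_card_eq (show k ≤ M.card by omega)
    obtain ⟨a, ha⟩ := hH
    exact hk M' hc' ⟨a, fun x hx y hy hxy => ha x (hM' hx) y (hM' hy) hxy⟩
  have hMkR : (M.card : ℝ) + 1 ≤ k := by exact_mod_cast hMk
  have h1 : (m : ℝ) ≤ k + 3 + 6 * Real.logb 2 (Fintype.card V) := by linarith
  refine ⟨h1, ?_, ?_⟩
  · intro h2
    have h3 : (k : ℝ) / 2 ≤ Real.logb 2 (Fintype.card V) := by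
      rw [Real.le_logb_iff_rpow_le (by norm_num) hVR]
      exact h2
    linarith
  · intro C hC hCm
    rw [← Real.logb_le_iff_le_rpow (by norm_num) hVR, le_div_iff₀ (by linarith)]
    nlinarith

end Pool.Agent.Results.MP_28724c_co.AlternatingSymmetry
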