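import Pool.Agent.H834Q.Graph

/-!
# Ramsey numbers of colourings computed with bounded memory

Vertices are the integers `0, …, 2 ^ m - 1`, written with `m` binary digits.  The pairs of vertices
are coloured by a machine with `w` states which reads the digits of the two vertices once,
simultaneously, in an arbitrary fixed order of the `m` digit places.  For finite automata
(transitions not depending on the time) the Ramsey numbers are polynomial, for machines with
arbitrary time-dependent transitions they are quasi-polynomial.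
-/

namespace Pool.Agent.Results.MP_28724c_co.BoundedMemoryGraphs

open Pool.Agent.H834Q

/-- The state of the machine after reading the digits number `π 0, …, π (t - 1)` of the two vertices
`v 0, v 1`: it starts in `q₀`, and at time `t` it reads the digit number `π t` of both vertices and
applies the transition `δ t`. -/
def state {Q : Type} (δ : ℕ → Q → (Fin 2 → Bool) → Q) (q₀ : Q) (π : ℕ → ℕ) (v : Fin 2 → ℕ) : ℕ → Q
  | 0 => q₀
  | t + 1 => δ t (state δ q₀ π v t) (fun i => (v i).testBit (π t))

/-- The colour of every pair `a < b` of vertices in `{0, …, 2 ^ m - 1}` is a function `g` of the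
final state of the machine on `a, b`; `π` is the order in which the `m` digits are read. -/
structure ComputedBy {κ Q : Type} (m : ℕ) (c : ℕ → ℕ → κ)
    (δ : ℕ → Q → (Fin 2 → Bool) → Q) (q₀ : Q) (π : ℕ → ℕ) (g : Q → κ) : Prop where
  order : Set.BijOn π (Set.Iio m) (Set.Iio m)
  colour : ∀ a b : ℕ, a < b → b < 2 ^ m → c a b = g (state δ q₀ π ![a, b] m)

/-- All pairs `a < b` of elements of `S` have the same colour. -/
def Homogeneous {κ : Type} (c : ℕ → ℕ → κ) (S : Finset ℕ) : Prop :=
  ∃ k : κ, ∀ a ∈ S, ∀ b ∈ S, a < b → c a b = k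

theorem state_eq {Q : Type} (δ : ℕ → Q → (Fin 2 → Bool) → Q) (q₀ : Q) (π : ℕ → ℕ)
    (v : Fin 2 → ℕ) (t : ℕ) : state δ q₀ π v t = run δ q₀ π v t := by
  induction t with
  | zero => rfl
  | succ t ih =>
    show δ t (state δ q₀ π v t) _ = δ t (run δ q₀ π v t) _
    rw [ih]

theorem NN_le (n k : ℕ) : NN n k ≤ (n * (k + 1)) ^ (k + 1) := by
  induction k with
  | zero => unfold NN; simp
  | succ k ih =>
    unfold NN
    calc n * ((k + 1) * NN n k) = (n * (k + 1)) * NN n k := by ring
      _ ≤ (n * (k + 1)) * (n * (k + 1)) ^ (k + 1) := Nat.mul_le_mul_left _ ih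
      _ = (n * (k + 1)) ^ (k + 2) := by ring
      _ ≤ (n * (k + 1 + 1)) ^ (k + 1 + 1) :=
        Nat.pow_le_pow_left (Nat.mul_le_mul_left _ (by omega)) _

theorem aux {κ Q : Type} {m : ℕ} {c : ℕ → ℕ → κ} {δ : ℕ → Q → (Fin 2 → Bool) → Q} {q₀ : Q}
    {π : ℕ → ℕ} {g : Q → κ} (hc : ComputedBy m c δ q₀ π g) :
    Computed 2 m Q (fun A : Finset ℕ => if h : A.Nonempty then c (A.min' h) (A.max' h) else
      g q₀) δ q₀ π g := by
  intro v hv hvm
  have hne : (Finset.univ.image v).Nonempty := ⟨v 0, Finset.mem_image_of_mem v (Finset.mem_univ 0)⟩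
  have hlt : v 0 < v 1 := hv (by decide)
  have hmin : (Finset.univ.image v).min' hne = v 0 := by
    apply le_antisymm
    · exact Finset.min'_le _ _ (Finset.mem_image_of_mem v (Finset.mem_univ 0))
    · apply Finset.le_min'
      intro y hy
      obtain ⟨i, -, rfl⟩ := Finset.mem_image.1 hy
      exact hv.monotone (Fin.zero_le i)
  have hmax : (Finset.univ.image v).max' hne = v 1 := by
    apply le_antisymm
    · apply Finset.max'_le
      intro y hy
      obtain ⟨i, -, rfl⟩ := Finset.mem_image.1 hy
      exact hv.monotone (by fin_cases i <;> decide)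
    · exact Finset.le_max' _ _ (Finset.mem_image_of_mem v (Finset.mem_univ 1))
  simp only
  rw [dif_pos hne, hmin, hmax, hc.colour _ _ hlt (hvm 1), state_eq]
  congr 2
  funext i
  fin_cases i <;> rfl

theorem homog_conv {κ : Type} {c : ℕ → ℕ → κ} {x : κ} {S : Finset ℕ}
    (h : Homog 2 (fun A : Finset ℕ => if h : A.Nonempty then c (A.min' h) (A.max' h) else x) S) :
    Homogeneous c S := by
  have key : ∀ a ∈ S, ∀ b ∈ S, a < b →
      (fun A : Finset ℕ => if h : A.Nonempty then c (A.min' h) (A.max' h) else x) {a, b} =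
        c a b := by
    intro a _ b _ hab
    have hne : ({a, b} : Finset ℕ).Nonempty := ⟨a, by simp⟩
    simp only
    rw [dif_pos hne]
    congr 1
    · apply le_antisymm
      · exact Finset.min'_le _ _ (by simp)
      · apply Finset.le_min'
        intro y hy
        simp only [Finset.mem_insert, Finset.mem_singleton] at hy
        rcases hy with rfl | rfl
        · exact le_rfl
        · exact hab.le
    · apply le_antisymm
      · apply Finset.max'_le
        intro y hy
        simp only [Finset.mem_insert, Finset.mem_singleton] at hy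
        rcases hy with rfl | rfl
        · exact hab.le
        · exact le_rfl
      · exact Finset.le_max' _ _ (by simp)
  by_cases hex : ∃ a ∈ S, ∃ b ∈ S, a < b
  · obtain ⟨a, ha, b, hb, hab⟩ := hex
    refine ⟨c a b, ?_⟩
    intro a' ha' b' hb' hab'
    rw [← key a ha b hb hab, ← key a' ha' b' hb' hab']
    refine h _ ?_ _ ?_ (Finset.card_pair hab'.ne) (Finset.card_pair hab.ne)
    · intro y hy
      simp only [Finset.mem_insert, Finset.mem_singleton] at hy
      rcases hy with rfl | rfl <;> assumption
    · intro y hy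
      simp only [Finset.mem_insert, Finset.mem_singleton] at hy
      rcases hy with rfl | rfl <;> assumption
  · push Not at hex
    exact ⟨x, fun a ha b hb hab => absurd hab (not_lt.2 (hex a ha b hb))⟩

/-- Let `w` be a number of states.
(1) Every colouring (with any set of colours) of the pairs of `{0, …, 2 ^ m - 1}` computed by a
finite automaton with at most `w` states has a homogeneous set of size `n` whenever
`24 * w ^ 2 * (w!) ^ 4 * ⌈log₂ n⌉ ≤ m`: the Ramsey numbers are polynomial in `n`.
(2) There is `D` such that every colouring of these pairs computed by a machine with at most `w`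
states and time-dependent transitions has a homogeneous set of size `n` whenever
`(D * ⌈log₂ n⌉) ^ D ≤ m`: the Ramsey numbers are quasi-polynomial in `n`. -/
theorem result (w : ℕ) :
    (∀ n m : ℕ, 1 ≤ n → 24 * w ^ 2 * w.factorial ^ 4 * Nat.clog 2 n ≤ m →
      ∀ (κ Q : Type) [Fintype Q] (c : ℕ → ℕ → κ) (δ : Q → (Fin 2 → Bool) → Q) (q₀ : Q)
        (π : ℕ → ℕ) (g : Q → κ), Fintype.card Q ≤ w → ComputedBy m c (fun _ => δ) q₀ π g →
        ∃ S ⊆ Finset.range (2 ^ m), S.card = n ∧ Homogeneous c S) ∧
    (∃ D : ℕ, ∀ n m : ℕ, 2 ≤ n → (D * Nat.clog 2 n) ^ D ≤ m →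
      ∀ (κ Q : Type) [Fintype Q] (c : ℕ → ℕ → κ) (δ : ℕ → Q → (Fin 2 → Bool) → Q) (q₀ : Q)
        (π : ℕ → ℕ) (g : Q → κ), Fintype.card Q ≤ w → ComputedBy m c δ q₀ π g →
        ∃ S ⊆ Finset.range (2 ^ m), S.card = n ∧ Homogeneous c S) := by
  constructor
  · intro n m hn hm κ Q _ c δ q₀ π g hw hc
    obtain ⟨S, h1, h2, h3⟩ := graph_uniform hw (fun t ht => hc.order.mapsTo ht)
      (fun s hs t ht h => hc.order.injOn hs ht h) (aux hc) hn (by
        unfold CC
        calc 2 * (12 * w ^ 2 * w.factorial ^ 4) * Nat.clog 2 n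
            = 24 * w ^ 2 * w.factorial ^ 4 * Nat.clog 2 n := by ring
          _ ≤ m := hm)
    exact ⟨S, h1, h2, homog_conv h3⟩
  · refine ⟨(2 * CC w + 1) * (w ^ (4 * w) + 1), ?_⟩
    intro n m hn hm κ Q _ c δ q₀ π g hw hc
    have hlog1 : 1 ≤ Nat.clog 2 n := Nat.clog_pos (by norm_num) hn
    obtain ⟨S, h1, h2, h3⟩ := graph_nonuniform hw (fun t ht => hc.order.mapsTo ht)
      (fun s hs t ht h => hc.order.injOn hs ht h) (aux hc) hn (by
        refine (NN_le _ _).trans (le_trans ?_ (hm.trans (Nat.le_succ m)))
        have h1 : (2 * CC w * Nat.clog 2 n + 1) * (w ^ (4 * w) + 1) ≤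
            (2 * CC w + 1) * (w ^ (4 * w) + 1) * Nat.clog 2 n := by
          calc (2 * CC w * Nat.clog 2 n + 1) * (w ^ (4 * w) + 1)
              ≤ ((2 * CC w + 1) * Nat.clog 2 n) * (w ^ (4 * w) + 1) :=
                Nat.mul_le_mul_right _ (by nlinarith)
            _ = _ := by ring
        calc ((2 * CC w * Nat.clog 2 n + 1) * (w ^ (4 * w) + 1)) ^ (w ^ (4 * w) + 1)
            ≤ ((2 * CC w + 1) * (w ^ (4 * w) + 1) * Nat.clog 2 n) ^ (w ^ (4 * w) + 1) :=
              Nat.pow_le_pow_left h1 _
          _ ≤ ((2 * CC w + 1) * (w ^ (4 * w) + 1) * Nat.clog 2 n) ^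
              ((2 * CC w + 1) * (w ^ (4 * w) + 1)) := by
              apply Nat.pow_le_pow_right
              · have : 0 < (2 * CC w + 1) * (w ^ (4 * w) + 1) * Nat.clog 2 n := by positivity
                exact this
              · exact Nat.le_mul_of_pos_left _ (by omega))
    exact ⟨S, h1, h2, homog_conv h3⟩

end Pool.Agent.Results.MP_28724c_co.BoundedMemoryGraphs
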