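import Pool.Agent.H267R3.PR.Timed4
import Pool.Agent.H267R3.PR.DefsO
import Pool.Agent.H267R3.PR.PairLow

/-!
# Diagonal Ramsey numbers of colourings computed in bounded width are nearly polynomial

Vertices are the integers `0, …, b ^ m - 1`, written with `m` digits in base `b`. A colouring of the
pairs is *computed in width `w`* if there is a program with at most `w` states which reads the
columns of digits of the two vertices `x < y` one after the other, in any fixed order `π` of the
places, changes its state by a rule that can depend on the time, and whose last state determines
the colour.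

Write `N = b ^ m` for the number of vertices and `L = lcm(1, …, w)`.
(1) Every such colouring, with any number of colours, has a homogeneous set of size `2 ^ k` with
`k = m / (log m) ^ O(1)`, where the constants depend on `w` only. So for fixed `b` and `w` the
diagonal Ramsey numbers of these colourings satisfy `log R(n) ≤ C log n (log log n) ^ C`: the
growth is nearly polynomial, and not exponential.
(2) Even for rules which do not depend on the time (finite automata), the natural order of the
digits and three states the homogeneous sets can be as small as `(2 q - 1) ^ m` for `b = 2 ^ q`, so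
that the growth is at least polynomial, of a degree which tends to infinity with `b`.

The proof of (1) is a weighted factorisation forest for the maps of the equal columns (recursion on
the rank and on the types of the cut points), with the nested code `z E(rest) (z z') ^ N` at the
idempotent nodes, where `z'` is the reversed letter.
-/

set_option autoImplicit false

namespace Pool.Agent.Results.MP_28724c_co.NearlyPolynomial

open Pool.Agent.H267R3.PR

theorem result :
    (∀ b m w k : ℕ, 2 ≤ b → 1 ≤ k →
      w ^ 2 * (2 * k * (52 * (Finset.Icc 1 w).lcm id ^ 2 * w ^ (2 * w) * (Nat.log 2 m + 1)) ^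
        ((w + 1) * (2 * w ^ (2 * w) + 1))) ≤ m →
      ∀ (π : ℕ → ℕ), Set.BijOn π (Set.Iio m) (Set.Iio m) →
      ∀ (κ : Type) (c : Finset ℕ → κ), ComputedInOrder b m 2 w π c →
        ∃ S ⊆ Finset.range (b ^ m), S.card = 2 ^ k ∧ Homogeneous 2 c S) ∧
    (∀ q m : ℕ, 2 ≤ q →
      ∃ c : Finset ℕ → Bool, ComputedByAutomaton (2 ^ q) m 2 3 c ∧
        ∀ S ⊆ Finset.range ((2 ^ q) ^ m), Homogeneous 2 c S → S.card ≤ (2 * q - 1) ^ m) :=
  ⟨fun b m w k hb hk hm π hπ _ c hc => pairs_order b m w k hb hk hm π hπ c hc,
    fun q m hq => pairs_low q m hq⟩

end Pool.Agent.Results.MP_28724c_co.NearlyPolynomial
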